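import Pool.Agent.Helper53.CTG.Goals

/-!
# Project CTG (MP_8b4d68_lc), packet ELE: elementary steps
-/

namespace Pool.Agent.Helper24.CTG

open Pool.Agent.Helper53.CTG
open Pool.Agent.Helper1.TE (Gad app cif)
open Finset

theorem sub_ne (q : ℕ) (x : De) (n d : ℕ) (hx : x.k ≠ 0) :
    sub q x n d = if d = 0 then x else idle := by
  unfold sub cif
  rw [if_neg hx]

theorem rn_zero {Z : Type} (g : Gad Z) (tst : ℕ → ℕ) (t : ℕ → ℕ → ℕ → ℕ → ℕ → ℕ) (q c : ℕ) (x : De)
    (γ : ℕ → ℕ) (s : (ℕ → Z) × ℕ) : Rn g tst t q c x 0 γ s = exec g tst t c x (γ 0) s := rfl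

theorem digit {n τ : ℕ} (h : τ < 13 ^ (n + 1)) :
    ∃ d < 13, ∃ r < 13 ^ n, τ = d * 13 ^ n + r := by
  have hp : 0 < 13 ^ n := by positivity
  refine ⟨τ / 13 ^ n, ?_, τ % 13 ^ n, Nat.mod_lt _ hp, ?_⟩
  · rw [Nat.div_lt_iff_lt_mul hp]
    rw [pow_succ] at h
    linarith
  · rw [Nat.mul_comm]
    exact (Nat.div_add_mod _ _).symm

theorem digit_lt {n d r : ℕ} (hd : d < 13) (hr : r < 13 ^ n) : d * 13 ^ n + r < 13 ^ (n + 1) := by
  rw [pow_succ]
  have : (d + 1) * 13 ^ n ≤ 13 * 13 ^ n := Nat.mul_le_mul_right _ (by omega)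
  rw [Nat.succ_mul] at this
  omega

theorem rn_idle (hB : Blocks) {Z : Type} (g : Gad Z) (tst : ℕ → ℕ) (t : ℕ → ℕ → ℕ → ℕ → ℕ → ℕ)
    (q c : ℕ) (n : ℕ) : ∀ (γ : ℕ → ℕ) (s s' : (ℕ → Z) × ℕ),
    Rn g tst t q c idle n γ s = some s' ↔ s' = s ∧ ∀ τ < 13 ^ n, γ τ = 0 := by
  induction n with
  | zero =>
    intro γ s s'
    rw [rn_zero]
    have h : exec g tst t c idle (γ 0) s = if γ 0 = 0 then some s else none := rfl
    rw [h]
    constructor
    · intro h2
      by_cases h3 : γ 0 = 0
      · rw [if_pos h3] at h2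
        refine ⟨(Option.some.inj h2).symm, fun τ hτ => ?_⟩
        rw [pow_zero] at hτ
        obtain rfl : τ = 0 := by omega
        exact h3
      · rw [if_neg h3] at h2
        exact absurd h2 (by simp)
    · rintro ⟨rfl, h2⟩
      rw [if_pos (h2 0 (by norm_num))]
  | succ n ih =>
    intro γ s s'
    rw [hB]
    have hsub : ∀ d, sub q idle n d = idle := by
      intro d
      rw [sub_ne q idle n d (by decide)]
      split_ifs <;> rfl
    simp only [hsub, ih]
    constructor
    · rintro ⟨f, h0, h13, hf⟩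
      have hc : ∀ d ≤ 13, f d = s := by
        intro d
        induction d with
        | zero => intro _; exact h0
        | succ d ihd =>
          intro hd
          rw [(hf d (by omega)).1, ihd (by omega)]
      refine ⟨by rw [← h13, hc 13 (le_refl _)], fun τ hτ => ?_⟩
      obtain ⟨d, hd, r, hr, rfl⟩ := digit hτ
      exact (hf d hd).2 r hr
    · rintro ⟨rfl, h2⟩
      exact ⟨fun _ => s', rfl, rfl, fun d hd => ⟨rfl, fun τ hτ => h2 _ (digit_lt hd hτ)⟩⟩

theorem gELE : GoalELE := by
  intro hB
  refine ⟨?_, ?_, ?_, ?_, ?_⟩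
  · intro Z g tst t q c x n γ s s' hx
    have hz : ∀ (γ : ℕ → ℕ) (s s' : (ℕ → Z) × ℕ), Rn g tst t q c x 0 γ s = some s' ↔
        exec g tst t c x (γ 0) s = some s' ∧ ∀ τ, 0 < τ → τ < 13 ^ 0 → γ τ = 0 := by
      intro γ s s'
      rw [rn_zero]
      constructor
      · intro h
        exact ⟨h, fun τ h1 h2 => by rw [pow_zero] at h2; omega⟩
      · exact fun h => h.1
    rcases hx with rfl | hx
    · exact hz γ s s'
    · induction n generalizing γ s s' with
      | zero => exact hz γ s s'
      | succ n ih =>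
        rw [hB]
        have h0 : sub q x n 0 = x := by rw [sub_ne q x n 0 hx, if_pos rfl]
        have h1 : ∀ d, 1 ≤ d → sub q x n d = idle := by
          intro d hd
          rw [sub_ne q x n d hx, if_neg (by omega)]
        have e0 : (fun τ => γ (0 * 13 ^ n + τ)) = γ := by
          funext τ
          rw [Nat.zero_mul, Nat.zero_add]
        constructor
        · rintro ⟨f, f0, f13, hf⟩
          have p0 := hf 0 (by norm_num)
          rw [h0, e0, f0] at p0
          replace p0 := (ih γ s (f 1)).1 p0
          have hs : ∀ d, 1 ≤ d → d < 13 → f (d + 1) = f d ∧ ∀ τ < 13 ^ n, γ (d * 13 ^ n + τ) = 0 := by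
            intro d hd hd13
            have := hf d hd13
            rwa [h1 d hd, rn_idle hB g tst t q c] at this
          have hc : ∀ d, 1 ≤ d → d ≤ 13 → f d = f 1 := by
            intro d hd
            induction d, hd using Nat.le_induction with
            | base => intro _; rfl
            | succ d hd ihd =>
              intro hd13
              rw [(hs d hd (by omega)).1, ihd (by omega)]
          refine ⟨by rw [← f13, hc 13 (by norm_num) (le_refl _)]; exact p0.1, fun τ h2 h3 => ?_⟩
          obtain ⟨d, hd, r, hr, rfl⟩ := digit h3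
          rcases Nat.eq_zero_or_pos d with rfl | hdp
          · rw [Nat.zero_mul, Nat.zero_add] at h2 ⊢
            exact p0.2 r h2 hr
          · exact (hs d hdp hd).2 r hr
        · rintro ⟨h, h2⟩
          refine ⟨fun d => if d = 0 then s else s', rfl, rfl, ?_⟩
          intro d hd
          by_cases hd0 : d = 0
          · subst hd0
            rw [h0, e0]
            refine (ih γ s s').2 ⟨h, fun τ h3 h4 => h2 τ h3 ?_⟩
            have := digit_lt (n := n) (d := 0) (r := τ) (by norm_num) h4
            omega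
          · rw [h1 d (by omega), rn_idle hB g tst t q c]
            refine ⟨by simp only [hd0, if_false, show d + 1 ≠ 0 by omega], fun τ hτ => ?_⟩
            refine h2 _ ?_ (digit_lt hd hτ)
            have : 1 * 13 ^ n ≤ d * 13 ^ n := Nat.mul_le_mul_right _ (by omega)
            have hp : 0 < 13 ^ n := by positivity
            omega
  · intro q m u v i T d hu hq
    have h1 : ((q + 1) * m + u) % (q + 1) = u := by
      rw [Nat.mul_add_mod, Nat.mod_eq_of_lt (by omega)]
    have h2 : q - 1 - u = q - (u + 1) := by omega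
    unfold sub
    rw [h1, h2]
    unfold cif
    rw [if_pos (show (nod v i T).k = 0 from rfl), if_pos (show (nod v i T).m = 0 from rfl),
      if_neg (by omega), if_neg (by omega)]
    rfl
  · intro q m v i T d hq
    have h1 : ((q + 1) * m) % (q + 1) = 0 := Nat.mul_mod_right _ _
    have h2 : ((q + 1) * m) / (q + 1) = m := Nat.mul_div_cancel_left _ (by omega)
    unfold sub
    rw [h1, h2]
    unfold cif
    rw [if_pos (show (nod v i T).k = 0 from rfl), if_pos (show (nod v i T).m = 0 from rfl),
      if_neg (by omega), if_pos rfl]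
    rfl
  · intro q m v i T d
    have h1 : ((q + 1) * m + q) % (q + 1) = q := by
      rw [Nat.mul_add_mod, Nat.mod_eq_of_lt (by omega)]
    unfold sub
    rw [h1]
    unfold cif
    rw [if_pos (show (nod v i T).k = 0 from rfl), if_pos (show (nod v i T).m = 0 from rfl),
      if_pos (by omega)]
    rfl
  · intro q m u v i T d hu
    have h1 : ((q + 1) * m + u) % (q + 1) = u := by
      rw [Nat.mul_add_mod, Nat.mod_eq_of_lt (by omega)]
    unfold sub
    rw [h1]
    rfl

end Pool.Agent.Helper24.CTG
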